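import Pool.Agent.V1157.KL.Final

/-!
# Weak abundance for log canonical pairs on Kummer covers of arbitrary projective varieties

Let `Z` be any irreducible projective variety in `P^n`, not in a coordinate hyperplane, with the
homogeneous prime ideal `I`, let `F 1, …, F r` and `G` be forms which do not vanish on `Z`, and let
`e 1, …, e r` be positive numbers; there is no condition on the singularities of `Z` and of the
divisors of the forms (`ZCov n r`). Let `k` be the rank of the largest torus of diagonal matrices,
modulo the scalar matrices, which preserves `Z`, the divisor of `G` on `Z`, and the divisors of the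
`F j` on `Z` up to multiples of `e j` (`TorusActs`). Suppose that none of its one-parameter groups has
the property that the limits for `s → 0` of the points of `Z` with `G ≠ 0` satisfy `G ≠ 0` as well
(`¬ ZLim X`; otherwise `K + D` below is not pseudo-effective, see `MP_bc213e_ag.KummerNonvanishing`).

Let `m` be a large number which is divisible by the `e j`, let `X_m` be any irreducible component of
the variety with the equations `f (t 0 ^ m, …, t n ^ m) = 0`, `f ∈ I`, and
`w j ^ e j = F j (t 0 ^ m, …, t n ^ m)`, and `D` the divisor `G (t 0 ^ m, …, t n ^ m) = 0` on it.

Then weak abundance holds for ALL log canonical pairs `(Y, Δ)`, `Y` a normal projective variety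
birational to `X_m`, such that the boundary `Δ` contains the divisors of `Y` whose centre on `X_m`
lies on `D`; the other components of `Δ` are arbitrary: `K_Y + Δ` is `ℚ`-effective, and
`κ (Y, K_Y + Δ) = ν (Y, K_Y + Δ) ≥ dim Y - k`. If the pair has canonical singularities outside of `D`
(for instance if `(Y, Δ)` is log smooth and `Δ` is the reduced preimage of `D`) then
`κ = ν = dim Y - k` exactly. The number `k` can be any number between `0` and `dim Y`, so that `κ`
takes all values, and `K_Y + Δ` is not nef or big in general.

The language and the definitions of `Pool.Agent.Y172` are used: `Y` is given by the homogeneous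
coordinates `y` of its generic point, with values in the function field `L`; the prime divisors of
`Y` are places `P` of `L`, `P.ord` is the order along `P`. `OffG X m t P` says that the centre of `P`
on `X_m` lies on `D`.

Proof. The torus gives a fibration of `X_m` whose base has, by the theory of the starting repository
(`Pool.Agent.Y192.KC.zlg_all`), a ramified model of log general type, over which `X_m` has high
multiplicities (`KumW`). The products of powers of the pluricanonical forms of the base (`Base`), and
of forms along the very affine fibres, are sections over the pair (`Comb`); the numerical dimension is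
bounded by the number of the base forms and fibre forms (`Weak2`). The exact value comes from the
derivations given by the one-parameter groups (`KumU`, `KumEx`).
-/

set_option autoImplicit false

namespace Pool.Agent.Results.MP_2c56d9_ag.KummerWeakAbundance

open Pool.Agent.Y192.KC Pool.Agent.Y172 Pool.Agent.V1157.KL

/-- `(Y, Δ)` is a projective log canonical pair of dimension `d`, where `y` is the generic point of
`Y`. -/
def LcPair {L : Type} [Field L] [Algebra ℂ L] {N : ℕ} (y : Fin (N + 1) → L) (d : ℕ)
    (Δ : FF.Place ℂ L → ℚ) : Prop :=
  NormalModel y ∧ Algebra.trdeg ℂ L = d ∧ Effective y Δ ∧ LogCanonical y d Δ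

/-- Let `X` be the data of a cover (the variety `Z`, the forms `F j` and `G`, and the exponents
`e j`), and suppose that there is no one-parameter group with limits. Let `k` be the rank of the torus
which preserves the data. Then for some `m0`, all `m ≥ m0` divisible by the `e j`, all components of
the `m`-th cover (with the function field `L`), and all projective log canonical pairs `(Y, Δ)` of
dimension `d`, `Y` birational to the component, such that the prime divisors of `Y` over `G = 0` have
coefficient (at least) `1` in `Δ`: the Kodaira dimension `κ` of `K_Y + Δ` is a natural number, at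
least `d - k`, and equal to the numerical dimension of `K_Y + Δ`, with respect to any effective
integral divisor `A`; and `κ = d - k` if the pair is canonical outside of `G = 0`. -/
theorem result {n r : ℕ} (X : ZCov n r) (hX : ¬ ZLim X) :
    ∃ k, TorusActs X k ∧ ¬ TorusActs X (k + 1) ∧ ∃ m0 : ℕ, ∀ m, m0 ≤ m → (∀ j, X.e j ∣ m) →
      ∀ (L : Type) [Field L] [Algebra ℂ L] (t : Fin (n + 1) → L) (w : Fin r → L),
      ZField X m L t w → ∀ (N d : ℕ) (y : Fin (N + 1) → L) (Δ : FF.Place ℂ L → ℚ), LcPair y d Δ →
      (∀ P, IsPrimeDivisor y P → OffG X.toCov m t P → 1 ≤ Δ P) →
      ∃ κ : ℕ, d ≤ κ + k ∧ (CanonicalOff y d Δ (OffG X.toCov m t) → d = κ + k) ∧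
        kodairaDim y d Δ = (κ : WithBot ℕ) ∧
        ∀ A, Effective y A → Integral y A → numericalDim y d Δ A = (κ : EReal) := by
  obtain ⟨k, hk, hk', m0, h⟩ := kum_final X hX
  exact ⟨k, hk, hk', m0, fun m hm he L _ _ t w hF N d y Δ ⟨hy, hd, hΔ, hLC⟩ hO =>
    h m hm he L t w hF d hd N y Δ hy hΔ hLC hO⟩

end Pool.Agent.Results.MP_2c56d9_ag.KummerWeakAbundance
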