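import Pool.Agent.V11322.LF.Va

/-!
# Weak abundance for log canonical pairs with a powerful linear system whose fibres are very affine

Let `(X, Δ)` be a projective log canonical pair, `X` normal of any dimension, and let `|V|` be a linear
system on `X` of dimension `n` (it may have fixed components) whose rational map `X ⇢ ℙⁿ` has an image
`Y` of dimension `d`, `1 ≤ d ≤ n`; the image may be any nondegenerate variety, for instance rational.
Suppose:

* (the base) `D i` (`i < q`) are finitely many members of `|V|` which span `V`, in arbitrary position,
  `c` is the number of the components of this configuration (`V` is the direct sum of `c`, but not of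
  `c + 1`, nonzero subspaces such that each `D i` belongs to one of them, the component of `D i`), and
  for every prime divisor `P` of `X` at which some `D i` has more than the generic multiplicity, the
  multiplicities of `P` in two members `D i`, `D i'` of one component of the configuration differ by
  at least `s (1 - Δ_P)`, where `s ≥ (n + 3 - c) (n - d + 1) (n - d + 2) / 2` (if `c = 1` and there are
  at least `n + 3` different members then `n + 1` can be taken instead of `n + 2`);
* (the fibres) the function field of `X` is generated over the algebraic closure of the function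
  field of `Y` by functions `t j`, whose zeros and poles which dominate `Y` have coefficient `1` in
  `Δ`: the open part of the generic fibre of `X ⇢ Y` is birational to a closed subvariety of a torus.

Then some positive multiple of `K_X + Δ` has a nonzero section (nefness is not needed), and there is a
number `l ≥ 0` such that `κ(K_X + Δ) ≥ l` and `ν(K_X + Δ) ≤ d + l`. If the inequality for `s` is
strict and `c ≤ d + 1` then `κ(K_X + Δ) ≥ d + 1 - c + l`, so `ν(K_X + Δ) - κ(K_X + Δ) ≤ c - 1`. In
particular, if the configuration is connected (`c = 1`) and the inequality is strict then weak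
abundance holds: `κ(K_X + Δ) = ν(K_X + Δ) = d + l`.

The fibres may be for instance log canonical compactifications of closed subvarieties of tori, of
any Kodaira dimension and with any moduli, together with horizontal divisors with smaller
coefficients. In `MP_66b48b_ag.SmallMultiplicityWeakAbundance` the base is given by hyperplanes in
general position or many hyperplanes, in `MP_bc213e_ag.VeryAffineFibres` by a variety of log general
type, with a number `μ` which depends on it. Here the members are in arbitrary position, and the bound
is explicit and depends only on `n`, `d` and `c`, not on `Y`, the members or their number; for `c > 1`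
the complement of the members in `Y` need not be of log general type.

The language and the definitions of `Pool.Agent.Y172` are used: `X` is given by the homogeneous
coordinates `x` of its generic point, with values in the function field `K` of `X`; the prime divisors
of `X` are places `P` of `K`, `P.ord` is the order along `P`. If `a` is the minimum of the orders at
`P` of the members of `V` then the multiplicity of `P` in the moving part of the divisor of the
system which is given by `f ∈ V` is `P.ord f - a`.

Proof: the sections of `m (K_X + Δ)` are products of powers of generalised Wronskians of `V`, divided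
by products of members (`lin_fib` of helper585), and of pluricanonical forms along the very affine
fibres (`lower`); the upper bound is `upper` in `Pool.Agent.Y172`.
-/

set_option autoImplicit false

open FF Pool.Agent.W602.GT Pool.Agent.Y172

namespace Pool.Agent.Results.MP_2c56d9_ag.LinearSystemVeryAffine

section

variable {K : Type} [Field K] [Algebra ℂ K] {N : ℕ}

/-- `(X, Δ)` is a projective log canonical pair of dimension `w`, where `x` is the generic point of
`X`. -/
def LcPair (x : Fin (N + 1) → K) (w : ℕ) (Δ : Place ℂ K → ℚ) : Prop :=
  NormalModel x ∧ Algebra.trdeg ℂ K = w ∧ Effective x Δ ∧ LogCanonical x w Δ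

/-- The function field of the image of the rational map which is given by the linear system `V`: the
field generated by the quotients of the members. -/
noncomputable def ImageField (V : Submodule ℂ K) : IntermediateField ℂ K :=
  IntermediateField.adjoin ℂ {y : K | ∃ f ∈ V, ∃ g ∈ V, y = f / g}

/-- `γ` is a decomposition of the configuration of the members `φ i` of `V` into `c` components: `V`
has a basis of `n + 1` elements `b a`, divided into `c` nonempty groups (`b a` is in the group `g a`),
such that `φ i` is in the subspace spanned by the elements of the group `γ i`. -/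
def Decomposition (n : ℕ) {q c : ℕ} (V : Submodule ℂ K) (φ : Fin q → K) (γ : Fin q → Fin c) :
    Prop :=
  ∃ (b : Fin (n + 1) → K) (g : Fin (n + 1) → Fin c), LinearIndependent ℂ b ∧
    Submodule.span ℂ (Set.range b) = V ∧ Function.Surjective g ∧
    ∀ i, φ i ∈ Submodule.span ℂ (b '' {a | g a = γ i})

/-- There are `r` members `φ i` of which no two are proportional. -/
def Different (r : ℕ) {q : ℕ} (φ : Fin q → K) : Prop :=
  ∃ τ : Fin r → Fin q, ∀ i j, i ≠ j → ∀ t : ℂ, φ (τ i) ≠ t • φ (τ j)

/-- The condition on the multiplicities: if at the prime divisor `P` of `X` the order of some `φ i` is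
not the minimum `a` of the orders of the members of `V`, then for some members `D i`, `D i'` of the
same component of the configuration the difference of the multiplicities of `P` is at least
`s (1 - Δ P)`. -/
def Multiplicities {q c : ℕ} (V : Submodule ℂ K) (φ : Fin q → K) (γ : Fin q → Fin c)
    (x : Fin (N + 1) → K) (Δ : Place ℂ K → ℚ) (s : ℝ) : Prop :=
  ∀ P, IsPrimeDivisor x P → ∀ a : ℤ, (∀ f ∈ V, f = 0 ∨ a ≤ P.ord f) →
    (∃ f ∈ V, f ≠ 0 ∧ P.ord f = a) → (∃ i, P.ord (φ i) ≠ a) →
    ∃ i i', γ i' = γ i ∧ s * (1 - Δ P) ≤ ((P.ord (φ i) - P.ord (φ i') : ℤ) : ℝ)

/-- The fibres are very affine: the field `K` is generated by functions `t j` and the elements which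
are algebraic over the field `L` of the base, and the prime divisors of `X` which are zeros or poles
of some `t j` and dominate the base (`P` is trivial on `L`) have coefficient at least `1` in `Δ`. -/
def VeryAffine (L : IntermediateField ℂ K) (x : Fin (N + 1) → K) (Δ : Place ℂ K → ℚ) : Prop :=
  ∃ (r : ℕ) (t : Fin r → K), (∀ j, t j ≠ 0) ∧
    IntermediateField.adjoin ℂ ({z : K | IsAlgebraic L z} ∪ Set.range t) = ⊤ ∧
    ∀ P, IsPrimeDivisor x P → (∀ f ∈ L, f ≠ 0 → P.ord f = 0) → (∃ j, P.ord (t j) ≠ 0) → 1 ≤ Δ P

end

/-- **Weak abundance.** Let `(X, Δ)` be a projective log canonical pair of dimension `w`, `V` a linear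
system of dimension `n` on `X` whose rational map has an image `Y` of dimension `d`, `1 ≤ d ≤ n`;
`φ i` nonzero members which span `V`, `γ` their decomposition into `c` components (there is no
decomposition into `c + 1` components), `R = n + 3 - c`, or `R = n + 1` if `c = 1` and there are
`n + 3` different members, and `s ≥ R (n - d + 1) (n - d + 2) / 2` a number for which the condition on
the multiplicities holds; let the fibres of `X ⇢ Y` be very affine. Then there is a number `l` such
that the Kodaira dimension of `K_X + Δ` is at least `l` and the numerical dimension, with respect to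
any effective divisor `A`, is at most `d + l`. If the inequality for `s` is strict then the Kodaira
dimension is at least `d + 1 - c + l`, and for `c = 1` the Kodaira dimension and the numerical
dimension are equal to `d + l`. -/
theorem result (d n q c : ℕ) (hd : 1 ≤ d) (hdn : d ≤ n) (K : Type) [Field K] [Algebra ℂ K]
    (N w : ℕ) (x : Fin (N + 1) → K) (Δ : Place ℂ K → ℚ) (hX : LcPair x w Δ)
    (V : Submodule ℂ K) (hV : Algebra.trdeg ℂ (ImageField V) = d)
    (φ : Fin q → K) (hφ0 : ∀ i, φ i ≠ 0) (hφ : Submodule.span ℂ (Set.range φ) = V)
    (γ : Fin q → Fin c) (hγ : Decomposition n V φ γ)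
    (hc : ∀ γ' : Fin q → Fin (c + 1), ¬ Decomposition n V φ γ')
    (R : ℕ) (hR : R + c = n + 3 ∨ (c = 1 ∧ Different (n + 3) φ ∧ R = n + 1))
    (s : ℝ) (hs : (R : ℝ) * (((n : ℝ) - d + 1) * ((n : ℝ) - d + 2)) ≤ 2 * s)
    (h : Multiplicities V φ γ x Δ s) (hF : VeryAffine (ImageField V) x Δ) :
    ∃ l : ℕ, (l : WithBot ℕ) ≤ kodairaDim x w Δ ∧
      (∀ A, Effective x A → numericalDim x w Δ A ≤ ((d + l : ℕ) : EReal)) ∧
      ((R : ℝ) * (((n : ℝ) - d + 1) * ((n : ℝ) - d + 2)) < 2 * s →
        (∀ κ : ℕ, κ + c = d + 1 → ((κ + l : ℕ) : WithBot ℕ) ≤ kodairaDim x w Δ) ∧
        (c = 1 → kodairaDim x w Δ = ((d + l : ℕ) : WithBot ℕ) ∧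
          ∀ A, Effective x A → Integral x A →
            numericalDim x w Δ A = ((d + l : ℕ) : EReal))) := by
  obtain ⟨hx, hn, hΔ, hLC⟩ := hX
  obtain ⟨r, t, ht, hgen, h2⟩ := hF
  obtain ⟨k, rfl⟩ := Nat.exists_eq_add_of_le hdn
  have e1 : ((d + k : ℕ) : ℝ) - d = (k : ℝ) := by
    push_cast
    ring
  rw [e1] at hs ⊢
  exact Pool.Agent.V11322.LF.lin_va hx hn hΔ hLC hd rfl hV hφ0 hφ hγ hc hR hs h ht hgen h2

end Pool.Agent.Results.MP_2c56d9_ag.LinearSystemVeryAffine
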