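import Pool.Agent.V11168.Rel.SymRel
import Pool.Agent.V11168.Rel.PairDim

/-!
# Weak abundance for pairs fibred over a base of log general type, if the orbifold symmetric
differentials have no common zeros along the fibres

Let `(X, Δ)` be a projective log canonical pair, given by its function field `K` and the
multiplicities `0 ≤ δ v ≤ 1` of `Δ` along the prime divisors `v` over `X` (that is,
`δ v = max 0 (- a v)`, `a v` the discrepancy), and let `Δ0 ≤ Δ` be an orbifold divisor in the sense of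
Campana (multiplicities `δ0 v = 1 - 1 / q`, or `1`; for instance the components of multiplicity `1` of
`Δ`, or `Δ0 = 0`). Let `X → B` be an algebraic fibre space, given by the function field `L` of `B`,
and let `B` carry a boundary with multiplicities `δB u ≤ 1`, such that the logarithmic forms of the
base are logarithmic forms of the pair: `1 - e (1 - δB u) ≤ δ v` if `v` lies over `u` with ramification
index `e` (for `Δ_B = 0` there is no condition).
-/

set_option autoImplicit false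

open Pool.Agent.W619.PQ Pool.Agent.W619.TW Pool.Agent.W619.Y Pool.Agent.Y174 FF

namespace Pool.Agent.Results.MP_2c56d9_ag.RelativeSymDifferentials

theorem noBaseRel_mono {k L K : Type} [Field k] [Field L] [Field K] [Algebra k K] [Algebra L K]
    {n : ℕ} {δ0 δ : Place k K → ℝ} (hle : ∀ v, δ0 v ≤ δ v) (h : NoBaseRel L n δ0) :
    NoBaseRel L n δ := by
  intro E hE c hc hx
  obtain ⟨m, s, p, hm, hs, ho, hp, hpc⟩ := h E hE c hc hx
  refine ⟨m, s, p, hm, hs, fun v hv D E hD hE => ?_, hp, hpc⟩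
  obtain ⟨q, hq, hqc⟩ := ho v hv D E hD hE
  refine ⟨q, hq, fun i => (hqc i).imp id fun h1 => le_trans ?_ h1⟩
  have h2 : (i : ℝ) * δ0 v ≤ i * δ v := mul_le_mul_of_nonneg_left (hle v) (Nat.cast_nonneg i)
  linarith

/-- Let the pair `(B, Δ_B)` be of log general type, `dim B = d`, `dim X = d + (r + 1)`. Let `F` be the
function field of the geometric generic fibre, over the algebraic closure `Λ` of `L`, with the
restrictions `δF`, `δF0` of `Δ`, `Δ0`. Let the orbifold symmetric differentials of `(X, Δ0)` have no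
common zeros on the tangent vectors along the fibres of `X → B` at the geometric generic point
(`NoBaseRel`), and let the restriction of `K_X + Δ` to the fibre have Kodaira dimension at most `0`.
Then this Kodaira dimension is `0`, `κ (K_X + Δ) ≥ dim B`, and there is a finite Galois cover `M` of
the fibre with `dim F` independent `1`-forms on `M` which are regular except for logarithmic poles
over the components of multiplicity `1` of `Δ0`, such that for the pull-back `(M, Δ')` of the pair `κ`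
is the same and `ν (K_X + Δ) ≤ dim B + ν (K_M + Δ')`. If `ν (K_M + Δ') = 0` then
`κ (K_X + Δ) = ν (K_X + Δ) = dim B`. -/
theorem result {L K Λ F : Type} [Field L] [Field K] [Field Λ] [Field F]
    -- the function fields of `B` and `X`
    [Algebra ℂ L] [Algebra ℂ K] [Algebra L K] [IsScalarTower ℂ L K]
    [Algebra.EssFiniteType ℂ L] [Algebra.EssFiniteType ℂ K] {d r : ℕ}
    (hB : Algebra.trdeg ℂ L = d) (hX : Algebra.trdeg ℂ K = (d + (r + 1) : ℕ))
    (hLK : ∀ x : K, IsAlgebraic L x → x ∈ Set.range (algebraMap L K))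
    -- the geometric generic fibre
    [Algebra L Λ] [IsAlgClosure L Λ] [Algebra Λ F] [Algebra K F] [Algebra L F]
    [IsScalarTower L Λ F] [IsScalarTower L K F] [Algebra ℂ Λ] [Algebra ℂ F]
    [IsScalarTower ℂ L Λ] [IsScalarTower ℂ Λ F] [IsScalarTower ℂ K F]
    (hF : IntermediateField.adjoin Λ (Set.range (algebraMap K F)) = ⊤)
    -- the divisors on `X`
    {δ δ0 : Place ℂ K → ℝ} (hδ : ∀ v, 0 ≤ δ v) (hδ1 : ∀ v, δ v ≤ 1) (hle : ∀ v, δ0 v ≤ δ v)
    {S : Finset K}
    (hS : ∀ v : Place ℂ K, IsDivisorial v (d + (r + 1)) → ∃ g ∈ S, g ≠ 0 ∧ δ v ≤ (v.ord g : ℝ))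
    -- the divisor on `B`
    {δB : Place ℂ L → ℝ} (hδB : ∀ u, δB u ≤ 1)
    (hBX : ∀ (v : Place ℂ K) (u : Place ℂ L) (e : ℕ), LiesOn v u e →
      1 - e * (1 - δB u) ≤ δ v)
    (hgt : PairKod ℂ L d δB d)
    -- the divisors on the fibre
    {δF δF0 : Place Λ F → ℝ} (hδF : IsPullFib δ δF) (hδF0 : IsPullFib δ0 δF0) (hOF : IsOrb δF0)
    (hleF : ∀ w, δF0 w ≤ δF w) (hκ : ¬ PairKod Λ F (r + 1) δF 1)
    -- the symmetric differentials
    (hsym : NoBaseRel L (d + (r + 1)) δ0) :
    PairKod ℂ K (d + (r + 1)) δ d ∧ PairKod Λ F (r + 1) δF 0 ∧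
      ∃ M : IntermediateField F (AlgebraicClosure F), FiniteDimensional F M ∧ IsGalois F M ∧
        (∃ η : Fin (r + 1) → (Derivation Λ M M →ₗ[M] M), LinearIndependent M η ∧
          ∀ i, ∀ w : Place Λ M, IsDivisorial w (r + 1) → ∀ D : Derivation Λ M M,
            LogFld (BdOn fun v => δF0 v = 1) w D → w.Reg (η i D)) ∧
        ∀ δ' : Place Λ M → ℝ, IsPull δF δ' →
          (∀ a, PairKod Λ F (r + 1) δF a ↔ PairKod Λ M (r + 1) δ' a) ∧
          (∀ h, PairNum Λ M (r + 1) δ' h → PairNum ℂ K (d + (r + 1)) δ (d + h)) ∧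
          (PairNum Λ M (r + 1) δ' 0 →
            ∀ h, (PairKod ℂ K (d + (r + 1)) δ h ↔ h ≤ d) ∧
              (PairNum ℂ K (d + (r + 1)) δ h ↔ d ≤ h)) := by
  have h1 : IsAlgClosed Λ := IsAlgClosure.isAlgClosed L
  have h2 : Algebra.IsAlgebraic L Λ := IsAlgClosure.isAlgebraic
  have hlow : PairKod ℂ K (d + (r + 1)) δ d :=
    RA.main_rel ‹Algebra.EssFiniteType ℂ L› ‹Algebra.EssFiniteType ℂ K› hB hX (by omega) hδ hδB hBX
      (noBaseRel_mono hle hsym) hgt
  have hfib : NoBaseOrb Λ F (r + 1) δF0 :=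
    Pool.Agent.V11168.Rel.noBaseRel_fib ‹Algebra.EssFiniteType ℂ K› hB hX hF hδF0
      (fun v => (hle v).trans (hδ1 v)) hsym
  obtain ⟨M, hM1, hM2, -, hM4, hM5, hM6⟩ := OB.main_base ‹Algebra.EssFiniteType ℂ L›
    ‹Algebra.EssFiniteType ℂ K› hB hX hLK hF hS hδF hOF hleF hκ hfib
  refine ⟨hlow, hM5, M, hM1, hM2, hM4, fun δ' hδ' => ?_⟩
  obtain ⟨h3, h4⟩ := hM6 δ' hδ'
  refine ⟨h3, fun h h5 => (h4 h h5).2, fun h5 h => ?_⟩
  have h7 : PairNum ℂ K (d + (r + 1)) δ d := (h4 0 h5).2
  exact ⟨⟨fun h8 => Pool.Agent.V11168.Rel.pair_le h8 h7,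
    fun h8 => Pool.Agent.V11168.Rel.pairKod_mono h8 hlow⟩,
    ⟨fun h8 => Pool.Agent.V11168.Rel.pair_le hlow h8,
    fun h8 => Pool.Agent.V11168.Rel.pairNum_mono h8 h7⟩⟩

end Pool.Agent.Results.MP_2c56d9_ag.RelativeSymDifferentials
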